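import Pool.Agent.Helper47.RFn.GoalsA
import Pool.Agent.Helper13.RFn.BS
import Pool.Agent.Helper69.RFn.WQ
import Pool.Agent.Helper97.RFn.NF

/-!
# Project RFn (`MP_c98eff_gt`), packet RP4: the form `q` of a curvature tensor
-/

namespace Pool.Agent.Helper31.RFn4

open Finset Pool.Agent.Helper47.RFn Pool.Agent.Helper47.RFn.BSaux Pool.Agent.Helper97.RFn

variable {n : ℕ}

theorem curv_id : IsCurv (Id4 n) := by
  have h : ∀ a b : Fin n, (1 : M2 n) a b = (1 : M2 n) b a := by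
    intro a b
    by_cases hab : a = b
    · rw [hab]
    · rw [Matrix.one_apply_ne hab, Matrix.one_apply_ne (Ne.symm hab)]
  constructor
  · intro a b c d
    simp only [Id4, wdg]
    ring
  · intro a b c d
    simp only [Id4, wdg]
    ring
  · intro a b c d
    simp only [Id4, wdg]
    rw [h a c, h b d, h a d, h b c]
    ring
  · intro a b c d
    simp only [Id4, wdg]
    rw [h b a, h c a, h c b]
    ring

/-- `q_I = (1/2) ∑ |z_a w_b - z_b w_a|²` -/
theorem id_wedge (z w : Fin n → ℂ) :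
    qf (Id4 n) z w = (1 / 2) * ∑ a, ∑ b, Complex.normSq (z a * w b - z b * w a) := by
  rw [qf_wedge curv_id]
  have e : (∑ a, ∑ b, ∑ c, ∑ d, (Id4 n a b c d : ℂ) * (z a * w b - z b * w a)
      * star (z c * w d - z d * w c))
      = ((∑ a, ∑ b, 2 * Complex.normSq (z a * w b - z b * w a) : ℝ) : ℂ) := by
    push_cast
    refine sum_congr rfl fun a _ => sum_congr rfl fun b _ => ?_
    have e1 : (∑ c, ∑ d, (Id4 n a b c d : ℂ) * (z a * w b - z b * w a)
        * star (z c * w d - z d * w c))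
        = ∑ c, ∑ d, (Id4 n a b c d : ℂ) * ((z a * w b - z b * w a)
        * star (z c * w d - z d * w c)) :=
      sum_congr rfl fun c _ => sum_congr rfl fun d _ => by ring
    rw [e1, id_contract a b (fun c d => (z a * w b - z b * w a) * star (z c * w d - z d * w c)),
      Complex.normSq_eq_conj_mul_self]
    simp only [starRingEnd_apply]
    have e2 : star (z b * w a - z a * w b) = -star (z a * w b - z b * w a) := by
      rw [← star_neg]
      congr 1
      ring
    rw [e2]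
    ring
  rw [e, Complex.ofReal_re]
  simp only [← mul_sum]
  ring

/-- the third part -/
theorem bound {R : T4 n} {C : ℝ} (hR : IsCurv R) (hC : ∀ a b c d, |R a b c d| ≤ C)
    (z w : Fin n → ℂ) : |qf R z w| ≤ (n : ℝ) ^ 4 * C * qf (Id4 n) z w := by
  rcases Nat.eq_zero_or_pos n with rfl | hn
  · simp [qf]
  have hC0 : 0 ≤ C := (abs_nonneg _).trans (hC ⟨0, hn⟩ ⟨0, hn⟩ ⟨0, hn⟩ ⟨0, hn⟩)
  obtain ⟨S, hS⟩ : ∃ S : ℝ, S = ∑ a, ∑ b, ‖z a * w b - z b * w a‖ := ⟨_, rfl⟩
  have hn1 : (1 : ℝ) ≤ n := by exact_mod_cast hn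
  have h1 : |qf R z w| ≤ (1 / 4) * (C * S ^ 2) := by
    rw [qf_wedge hR, abs_mul, abs_of_pos (by norm_num : (0 : ℝ) < 1 / 4)]
    refine mul_le_mul_of_nonneg_left ?_ (by norm_num)
    refine (Complex.abs_re_le_norm _).trans ?_
    have e : C * S ^ 2 = ∑ a, ∑ b, ∑ c, ∑ d, C * ‖z a * w b - z b * w a‖ *
        ‖z c * w d - z d * w c‖ := by
      rw [pow_two, hS, sum_mul, mul_sum]
      refine sum_congr rfl fun a _ => ?_
      rw [sum_mul, mul_sum]
      refine sum_congr rfl fun b _ => ?_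
      rw [mul_sum, mul_sum]
      refine sum_congr rfl fun c _ => ?_
      rw [mul_sum, mul_sum]
      refine sum_congr rfl fun d _ => ?_
      ring
    rw [e]
    refine (norm_sum_le _ _).trans (sum_le_sum fun a _ => ?_)
    refine (norm_sum_le _ _).trans (sum_le_sum fun b _ => ?_)
    refine (norm_sum_le _ _).trans (sum_le_sum fun c _ => ?_)
    refine (norm_sum_le _ _).trans (sum_le_sum fun d _ => ?_)
    rw [norm_mul, norm_mul, norm_star, Complex.norm_real, Real.norm_eq_abs]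
    exact mul_le_mul_of_nonneg_right (mul_le_mul_of_nonneg_right (hC a b c d) (norm_nonneg _))
      (norm_nonneg _)
  have h2 : S ^ 2 ≤ (n : ℝ) ^ 2 * ∑ a, ∑ b, Complex.normSq (z a * w b - z b * w a) := by
    have h3 : S ^ 2 ≤ (n : ℝ) * ∑ a : Fin n, (∑ b, ‖z a * w b - z b * w a‖) ^ 2 := by
      have := sq_sum_le_card_mul_sum_sq (s := (univ : Finset (Fin n)))
        (f := fun a => ∑ b, ‖z a * w b - z b * w a‖)
      simpa [hS] using this
    refine h3.trans ?_
    rw [pow_two (n : ℝ), mul_assoc]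
    refine mul_le_mul_of_nonneg_left ?_ (by positivity)
    rw [mul_sum]
    refine sum_le_sum fun a _ => ?_
    have := sq_sum_le_card_mul_sum_sq (s := (univ : Finset (Fin n)))
        (f := fun b => ‖z a * w b - z b * w a‖)
    simpa [Complex.normSq_eq_norm_sq] using this
  obtain ⟨N, hN⟩ : ∃ N : ℝ, N = ∑ a, ∑ b, Complex.normSq (z a * w b - z b * w a) := ⟨_, rfl⟩
  have hN0 : 0 ≤ N := by
    rw [hN]
    exact sum_nonneg fun a _ => sum_nonneg fun b _ => Complex.normSq_nonneg _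
  rw [id_wedge, ← hN]
  rw [← hN] at h2
  have h4 : (n : ℝ) ^ 2 ≤ (n : ℝ) ^ 4 := pow_le_pow_right₀ hn1 (by norm_num)
  have h5 : C * S ^ 2 ≤ C * ((n : ℝ) ^ 4 * N) :=
    mul_le_mul_of_nonneg_left (h2.trans (mul_le_mul_of_nonneg_right h4 hN0)) hC0
  have h6 : 0 ≤ C * ((n : ℝ) ^ 4 * N) := by positivity
  calc |qf R z w| ≤ (1 / 4) * (C * S ^ 2) := h1
    _ ≤ (1 / 4) * (C * ((n : ℝ) ^ 4 * N)) := mul_le_mul_of_nonneg_left h5 (by norm_num)
    _ ≤ (n : ℝ) ^ 4 * C * (1 / 2 * N) := by linarith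

theorem id_orth {z w : Fin n → ℂ} (hz : he z z = 1) (hw : he w w = 1) (hzw : he z w = 0) :
    qf (Id4 n) z w = 1 := by
  unfold qf Id4
  rw [wq_wdg]
  have h1 : ∀ x y : Fin n → ℂ, hf (1 : M2 n) x y = he x y := fun x y => hf_one x y
  rw [h1, h1, h1, h1, hz, hw, hzw]
  simp

theorem he_one {z : Fin n → ℂ} (hz : he z z = 1) : ∑ i, Complex.normSq (z i) = 1 := by
  rw [he_self] at hz
  exact_mod_cast hz

/-- the second part -/
theorem gram {z w : Fin n → ℂ} (h : qf (Id4 n) z w ≠ 0) :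
    ∃ z' w' : Fin n → ℂ, (∑ i, Complex.normSq (z' i)) = 1 ∧ (∑ i, Complex.normSq (w' i)) = 1 ∧
      (∑ i, z' i * star (w' i)) = 0 ∧ qf (Id4 n) z' w' = 1 ∧
      ∀ R, IsCurv R → qf R z w = qf (Id4 n) z w * qf R z' w' := by
  have hdep : ∀ c : ℂ, w ≠ c • z := by
    intro c hc
    apply h
    rw [id_wedge, hc]
    have : ∀ a b, z a * (c • z) b - z b * (c • z) a = 0 := by
      intro a b
      simp only [Pi.smul_apply, smul_eq_mul]
      ring
    simp only [this]
    simp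
  have hz : z ≠ 0 := by
    intro hz
    apply h
    rw [id_wedge, hz]
    simp
  obtain ⟨r, hr, hr1⟩ := he_unit hz
  obtain ⟨z', hz'⟩ : ∃ z' : Fin n → ℂ, z' = r⁻¹ • z := ⟨_, rfl⟩
  rw [← hz'] at hr1
  have hzr : z = r • z' := by rw [hz', smul_smul, mul_inv_cancel₀ hr, one_smul]
  obtain ⟨w0, hw0⟩ : ∃ w0 : Fin n → ℂ, w0 = w + (-he w z') • z' := ⟨_, rfl⟩
  have hw0n : w0 ≠ 0 := by
    intro h0
    rw [hw0] at h0
    refine hdep (he w z' * r⁻¹) ?_
    rw [← smul_smul, ← hz']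
    rw [neg_smul, ← sub_eq_add_neg, sub_eq_zero] at h0
    exact h0
  obtain ⟨s, hs, hs1⟩ := he_unit hw0n
  obtain ⟨w', hw'⟩ : ∃ w' : Fin n → ℂ, w' = s⁻¹ • w0 := ⟨_, rfl⟩
  rw [← hw'] at hs1
  have hws : w = he w z' • z' + s • w' := by
    rw [hw', smul_smul, mul_inv_cancel₀ hs, one_smul, hw0, neg_smul]
    abel
  have horth : he z' w' = 0 := by
    rw [hw', he_smul_right, hw0, he_add_right, he_smul_right, hr1, star_neg, he_star]
    ring
  have h1 : qf (Id4 n) z' w' = 1 := id_orth hr1 hs1 horth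
  have h2 : ∀ R, IsCurv R → qf R z w = Complex.normSq (r * s - 0 * he w z') * qf R z' w' := by
    intro R hR
    refine qf_basis hR z w z' w' r 0 (he w z') s (fun k => ?_) (fun k => ?_)
    · rw [hzr]
      simp
    · conv_lhs => rw [hws]
      simp
  refine ⟨z', w', he_one hr1, he_one hs1, horth, h1, fun R hR => ?_⟩
  rw [h2 R hR, h2 _ curv_id, h1, mul_one]

end Pool.Agent.Helper31.RFn4

namespace Pool.Agent.Helper47.RFn

theorem goal_RP4 : Goal_RP4 := by
  intro n
  refine ⟨fun R hR z w α β γ δ => ?_, fun z w => ⟨fun h R hR => ?_, fun h => ?_⟩,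
    fun R C hR hC z w => ?_⟩
  · exact BSaux.qf_basis hR _ _ z w α β γ δ (fun _ => rfl) (fun _ => rfl)
  · exact BSaux.qf_zero hR Pool.Agent.Helper31.RFn4.curv_id z w h
  · exact Pool.Agent.Helper31.RFn4.gram h
  · exact Pool.Agent.Helper31.RFn4.bound hR hC z w

end Pool.Agent.Helper47.RFn
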