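import Pool.Agent.Helper47.RFn.Alg

/-!
# Project RFn (MP_c98eff_gt, n ≥ 4), packet LI: `ell a b` and `elli a b` are inverse to each other
-/

namespace Pool.Agent.Helper47.RFn

open Finset

namespace H31

variable {n : ℕ}

lemma Ric_add (R S : T4 n) : Ric (R + S) = Ric R + Ric S := by
  ext a c
  simp only [Ric, Pi.add_apply, Matrix.add_apply, Finset.sum_add_distrib]

lemma Ric_smul (t : ℝ) (R : T4 n) : Ric (t • R) = t • Ric R := by
  ext a c
  simp only [Ric, Pi.smul_apply, Matrix.smul_apply, smul_eq_mul, Finset.mul_sum]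

lemma lam_add (R S : T4 n) : lam (R + S) = lam R + lam S := by
  unfold lam
  rw [Ric_add]
  simp only [Matrix.add_apply, Finset.sum_add_distrib]
  ring

lemma lam_smul (t : ℝ) (R : T4 n) : lam (t • R) = t * lam R := by
  unfold lam
  rw [Ric_smul]
  simp only [Matrix.smul_apply, smul_eq_mul, ← Finset.mul_sum]
  ring

lemma Ric0_add (R S : T4 n) : Ric0 (R + S) = Ric0 R + Ric0 S := by
  unfold Ric0
  rw [Ric_add, lam_add]
  module

lemma Ric0_smul (t : ℝ) (R : T4 n) : Ric0 (t • R) = t • Ric0 R := by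
  unfold Ric0
  rw [Ric_smul, lam_smul]
  module

lemma wdg_add (A B : M2 n) : wdg (A + B) 1 = wdg A 1 + wdg B 1 := by
  funext a b c d
  simp only [wdg, Matrix.add_apply, Pi.add_apply]
  ring

lemma wdg_smul (t : ℝ) (A : M2 n) : wdg (t • A) 1 = t • wdg A 1 := by
  funext a b c d
  simp only [wdg, Matrix.smul_apply, Pi.smul_apply, smul_eq_mul]
  ring

lemma Ric_wdg (A : M2 n) :
    Ric (wdg A 1) = (((n : ℝ) - 2) / 2) • A + (A.trace / 2) • (1 : M2 n) := by
  ext a c
  have h1 : ∀ b, wdg A 1 a b c b =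
      (A a c * (1 : M2 n) b b) / 2 - (A a b * (1 : M2 n) b c) / 2 +
        ((1 : M2 n) a c * A b b) / 2 - ((1 : M2 n) a b * A b c) / 2 := by
    intro b
    simp only [wdg]
    ring
  have h2 : ∑ b, A a b * (1 : M2 n) b c = A a c := by
    rw [← Matrix.mul_apply, Matrix.mul_one]
  have h3 : ∑ b, (1 : M2 n) a b * A b c = A a c := by
    rw [← Matrix.mul_apply, Matrix.one_mul]
  have h4 : ∑ b, A a c * (1 : M2 n) b b = (n : ℝ) * A a c := by
    simp [Matrix.one_apply_eq]
  have h5 : ∑ b, (1 : M2 n) a c * A b b = (1 : M2 n) a c * A.trace := by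
    rw [← Finset.mul_sum]
    rfl
  simp only [Ric, h1, Finset.sum_sub_distrib, Finset.sum_add_distrib, ← Finset.sum_div, h2, h3, h4,
    h5, Matrix.add_apply, Matrix.smul_apply, smul_eq_mul]
  ring

lemma lam_wdg (hn : 1 ≤ n) (A : M2 n) : lam (wdg A 1) = ((n : ℝ) - 1) * A.trace / n := by
  unfold lam
  have h : ∑ a, Ric (wdg A 1) a a = (Ric (wdg A 1)).trace := rfl
  rw [h, Ric_wdg]
  simp only [Matrix.trace_add, Matrix.trace_smul, Matrix.trace_one, Fintype.card_fin, smul_eq_mul]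
  have : (n : ℝ) ≠ 0 := by
    have : (1 : ℝ) ≤ n := by exact_mod_cast hn
    linarith
  field_simp
  ring

lemma lam_Id (hn : 1 ≤ n) : lam (Id4 n) = (n : ℝ) - 1 := by
  unfold Id4
  rw [lam_wdg hn]
  simp only [Matrix.trace_one, Fintype.card_fin]
  have : (n : ℝ) ≠ 0 := by
    have : (1 : ℝ) ≤ n := by exact_mod_cast hn
    linarith
  field_simp

lemma Ric_Id : Ric (Id4 n) = ((n : ℝ) - 1) • (1 : M2 n) := by
  unfold Id4
  rw [Ric_wdg]
  simp only [Matrix.trace_one, Fintype.card_fin]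
  module

lemma Ric0_Id (hn : 1 ≤ n) : Ric0 (Id4 n) = 0 := by
  unfold Ric0
  rw [Ric_Id, lam_Id hn, sub_self]

lemma trace_Ric0 (hn : 1 ≤ n) (R : T4 n) : (Ric0 R).trace = 0 := by
  unfold Ric0
  rw [Matrix.trace_sub, Matrix.trace_smul, Matrix.trace_one, Fintype.card_fin]
  have h : lam R = (Ric R).trace / n := rfl
  have : (n : ℝ) ≠ 0 := by
    have : (1 : ℝ) ≤ n := by exact_mod_cast hn
    linarith
  rw [h, smul_eq_mul]
  field_simp
  ring

lemma lam_wdg0 (hn : 1 ≤ n) (R : T4 n) : lam (wdg (Ric0 R) 1) = 0 := by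
  rw [lam_wdg hn, trace_Ric0 hn, mul_zero, zero_div]

lemma Ric0_wdg0 (hn : 1 ≤ n) (R : T4 n) :
    Ric0 (wdg (Ric0 R) 1) = (((n : ℝ) - 2) / 2) • Ric0 R := by
  have h : Ric0 (wdg (Ric0 R) 1) = Ric (wdg (Ric0 R) 1) - lam (wdg (Ric0 R) 1) • (1 : M2 n) := rfl
  rw [h, lam_wdg0 hn, Ric_wdg, trace_Ric0 hn]
  module

end H31

open H31 in
/-- LI: `ell a b` and `elli a b` are inverse to each other. -/
theorem goal_LI (_hLN : Goal_LN) : Goal_LI := by
  intro n hn a b ha hb R
  have hn1 : 1 ≤ n := by omega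
  have hn2 : (2 : ℝ) ≤ n := by exact_mod_cast hn
  have hN : 0 < 1 + 2 * ((n : ℝ) - 1) * a := by nlinarith [mul_nonneg (by linarith : (0:ℝ) ≤ n - 1) ha]
  have hM : 0 < 1 + ((n : ℝ) - 2) * b := by nlinarith [mul_nonneg (by linarith : (0:ℝ) ≤ n - 2) hb]
  set N := 1 + 2 * ((n : ℝ) - 1) * a with hNdef
  set M := 1 + ((n : ℝ) - 2) * b with hMdef
  have ellE : ∀ S : T4 n, ell a b S = S + (2 * a * lam S) • Id4 n + (2 * b) • wdg (Ric0 S) 1 :=
    fun S => rfl
  have elliE : ∀ S : T4 n, elli a b S =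
      S + (-(2 * a / N * lam S)) • Id4 n + (-(2 * b / M)) • wdg (Ric0 S) 1 := by
    intro S
    have : elli a b S = S - (2 * a / N * lam S) • Id4 n - (2 * b / M) • wdg (Ric0 S) 1 := rfl
    rw [this]
    module
  have l1 : ∀ S : T4 n, lam (ell a b S) = N * lam S := by
    intro S
    rw [ellE, lam_add, lam_add, lam_smul, lam_smul, lam_Id hn1, lam_wdg0 hn1, hNdef]
    ring
  have r1 : ∀ S : T4 n, Ric0 (ell a b S) = M • Ric0 S := by
    intro S
    rw [ellE, Ric0_add, Ric0_add, Ric0_smul, Ric0_smul, Ric0_Id hn1, Ric0_wdg0 hn1, hMdef]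
    module
  have l2 : ∀ S : T4 n, lam (elli a b S) = lam S / N := by
    intro S
    rw [elliE, lam_add, lam_add, lam_smul, lam_smul, lam_Id hn1, lam_wdg0 hn1]
    have e : 2 * ((n : ℝ) - 1) * a = N - 1 := by rw [hNdef]; ring
    field_simp
    linear_combination (-lam S) * e
  have r2 : ∀ S : T4 n, Ric0 (elli a b S) = (1 / M) • Ric0 S := by
    intro S
    rw [elliE, Ric0_add, Ric0_add, Ric0_smul, Ric0_smul, Ric0_Id hn1, Ric0_wdg0 hn1]
    have e : 1 / M = 1 + -(2 * b / M) * (((n : ℝ) - 2) / 2) := by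
      have : ((n : ℝ) - 2) * b = M - 1 := by rw [hMdef]; ring
      field_simp
      linear_combination this
    rw [e]
    module
  have a1 : ∀ S T : T4 n, elli a b (S + T) = elli a b S + elli a b T := by
    intro S T
    rw [elliE, elliE, elliE, lam_add, Ric0_add, wdg_add]
    module
  have a2 : ∀ (c : ℝ) (S : T4 n), elli a b (c • S) = c • elli a b S := by
    intro c S
    rw [elliE, elliE, lam_smul, Ric0_smul, wdg_smul]
    module
  have aI : elli a b (Id4 n) = (1 / N) • Id4 n := by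
    rw [elliE, lam_Id hn1, Ric0_Id hn1]
    have e : 1 / N = 1 + -(2 * a / N * ((n : ℝ) - 1)) := by
      have : 2 * ((n : ℝ) - 1) * a = N - 1 := by rw [hNdef]; ring
      field_simp
      linear_combination this
    have w0 : wdg (0 : M2 n) 1 = 0 := by
      have := wdg_smul (n := n) 0 0
      simpa using this
    rw [e, w0]
    module
  refine ⟨?_, ?_, l1 R, r1 R, l2 R, r2 R, a1 R, fun c => a2 c R, aI, ?_⟩
  · rw [ellE, l2, r2, wdg_smul, elliE]
    have e1 : 2 * a * (lam R / N) = 2 * a / N * lam R := by ring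
    have e2 : 2 * b * (1 / M) = 2 * b / M := by ring
    rw [e1, smul_smul, e2]
    module
  · rw [elliE, l1, r1, wdg_smul, ellE]
    have e1 : 2 * a / N * (N * lam R) = 2 * a * lam R := by field_simp
    have e2 : -(2 * b / M) * M = -(2 * b) := by field_simp
    rw [e1, smul_smul, e2]
    module
  · have hR : ∀ S : T4 n, Ric S = Ric0 S + lam S • (1 : M2 n) := by
      intro S
      have : Ric0 S = Ric S - lam S • (1 : M2 n) := rfl
      rw [this]
      module
    have w1 : wdg (1 : M2 n) 1 = Id4 n := rfl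
    rw [hR (ell a b R), l1, r1, wdg_add, wdg_smul, wdg_smul, w1, a1, a2, a2, aI, hR R, wdg_add,
      wdg_smul, w1]
    have k : elli a b (wdg (Ric0 R) 1) = (1 / M) • wdg (Ric0 R) 1 := by
      rw [elliE, lam_wdg0 hn1, Ric0_wdg0 hn1, wdg_smul]
      have e : 1 / M = 1 + -(2 * b / M) * (((n : ℝ) - 2) / 2) := by
        have : ((n : ℝ) - 2) * b = M - 1 := by rw [hMdef]; ring
        field_simp
        linear_combination this
      rw [e]
      module
    rw [k, smul_smul, smul_smul]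
    have e1 : M * (1 / M) = 1 := by field_simp
    have e2 : N * lam R * (1 / N) = lam R := by field_simp
    rw [e1, e2, one_smul]

end Pool.Agent.Helper47.RFn
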