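import Pool.Agent.Helper47.RFn.Mod

/-! # Packet RFn-MA1 (MP_c98eff_gt): one-parameter groups of rotations -/

namespace Pool.Agent.Helper31.RFnMA1

open Finset Pool.Agent.Helper47.RFn

section
open scoped Matrix.Norms.Operator

theorem expo {m : Type} [Fintype m] [DecidableEq m] (M : Matrix m m ℝ)
    (hM : M.transpose = -M) : ∃ R : ℝ → Matrix m m ℝ, (∀ s, R s * (R s).transpose = 1) ∧
      R 0 = 1 ∧ (∀ s a b, HasDerivAt (fun r => R r a b) ((M * R s) a b) s) ∧
      ∀ s, M * R s = R s * M := by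
  refine ⟨fun s => NormedSpace.exp (s • M), fun s => ?_, ?_, fun s a b => ?_, fun s => ?_⟩
  · have h1 : (NormedSpace.exp (s • M)).transpose = NormedSpace.exp (-(s • M)) := by
      rw [← Matrix.exp_transpose, Matrix.transpose_smul, hM, smul_neg]
    simp only [h1]
    rw [← Matrix.exp_add_of_commute _ _ ((Commute.refl (s • M)).neg_right), add_neg_cancel,
      NormedSpace.exp_zero]
  · simp only [zero_smul]
    exact NormedSpace.exp_zero
  · have h1 : HasDerivAt (fun r : ℝ => NormedSpace.exp (r • M)) (M * NormedSpace.exp (s • M)) s :=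
      hasDerivAt_exp_smul_const' M s
    exact ((Matrix.entryLinearMap ℝ ℝ a b).toContinuousLinearMap.hasFDerivAt.comp_hasDerivAt s h1)
  · exact (((Commute.refl M).smul_right s).exp_right).eq

end

variable {n : ℕ}

theorem mem_OO (u : Ix n → Ix n → ℝ) : u ∈ OO n ↔
    (Matrix.of u) * Matrix.transpose (Matrix.of u) = 1 := by
  constructor
  · intro h
    ext a b
    rw [Matrix.mul_apply, Matrix.one_apply]
    exact h a b
  · intro h a b
    have := congrFun (congrFun h a) b
    rw [Matrix.mul_apply, Matrix.one_apply] at this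
    exact this

theorem tr_of_Sk {M : Ix n → Ix n → ℝ} (hM : Sk M) :
    Matrix.transpose (Matrix.of M) = -(Matrix.of M) := by
  ext a b
  exact hM b a

theorem main1 (M : Ix n → Ix n → ℝ) (hM : Sk M) : ∃ R : ℝ → Ix n → Ix n → ℝ,
    (∀ s, R s ∈ OO n) ∧ (∀ a b, R 0 a b = if a = b then 1 else 0) ∧
    (∀ s a b, HasDerivAt (fun r => R r a b) (∑ c, M a c * R s c b) s) ∧
    (∀ s a b, ∑ c, M a c * R s c b = ∑ c, R s a c * M c b) := by
  obtain ⟨R, h1, h2, h3, h4⟩ := expo (Matrix.of M) (tr_of_Sk hM)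
  refine ⟨R, fun s => (mem_OO _).2 (h1 s), fun a b => ?_, fun s a b => ?_, fun s a b => ?_⟩
  · rw [h2]
    exact Matrix.one_apply
  · exact h3 s a b
  · exact congrFun (congrFun (h4 s) a) b

theorem unit_norm {R : Ix n → Ix n → ℝ} (hR : R ∈ OO n) {x : EE n} (hx : ‖x‖ = 1) :
    ‖(WithLp.toLp 2 (fun i => ∑ j, R i j * x j) : EE n)‖ = 1 := by
  have h1 := (mem_OO R).1 hR
  have h2 : Matrix.transpose (Matrix.of R) * (Matrix.of R) = 1 :=
    mul_eq_one_comm.1 h1
  rw [EuclideanSpace.norm_eq] at hx ⊢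
  rw [Real.sqrt_eq_one] at hx ⊢
  simp only [Real.norm_eq_abs, sq_abs] at hx ⊢
  rw [← hx]
  have h3 : ∀ j k, ∑ i, R i j * R i k = if j = k then 1 else 0 := by
    intro j k
    have := congrFun (congrFun h2 j) k
    rw [Matrix.mul_apply, Matrix.one_apply] at this
    exact this
  have h4 : ∀ i, (∑ j, R i j * x j) ^ 2 = ∑ j, ∑ k, R i j * R i k * (x j * x k) := by
    intro i
    rw [pow_two, sum_mul_sum]
    exact sum_congr rfl fun j _ => sum_congr rfl fun k _ => by ring
  simp only [h4]
  rw [sum_comm]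
  refine sum_congr rfl fun j _ => ?_
  rw [sum_comm]
  have h5 : ∀ k, ∑ i, R i j * R i k * (x j * x k) = if j = k then x j * x k else 0 := by
    intro k
    rw [← sum_mul, h3]
    split_ifs <;> ring
  simp only [h5]
  rw [sum_ite_eq]
  simp
  ring

end Pool.Agent.Helper31.RFnMA1

namespace Pool.Agent.Helper47.RFn

open Finset Pool.Agent.Helper31.RFnMA1

theorem goal_MA1 : Goal_MA1 := by
  intro n
  refine ⟨main1, fun η ζ ξ z hη hζ hξ => ?_⟩
  obtain ⟨R1, a1, b1, c1, -⟩ := main1 η hη
  obtain ⟨R2, a2, b2, c2, -⟩ := main1 ζ hζ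
  obtain ⟨R3, a3, b3, c3, d3⟩ := main1 ξ hξ
  obtain ⟨⟨x, hx⟩, ⟨u, hu⟩⟩ := z
  have hx1 : ‖x‖ = 1 := by simpa using hx
  have hOO : ∀ s, (fun a b => ∑ c, ∑ d, R2 s a c * u c d * R3 s d b) ∈ OO n := by
    intro s
    rw [mem_OO]
    have e : Matrix.of (fun a b => ∑ c, ∑ d, R2 s a c * u c d * R3 s d b) =
        (Matrix.of (R2 s)) * (Matrix.of u) *
          (Matrix.of (R3 s)) := by
      ext a b
      rw [Matrix.mul_apply]
      simp only [Matrix.mul_apply, sum_mul, Matrix.of_apply]
      exact sum_comm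
    rw [e, Matrix.transpose_mul, Matrix.transpose_mul]
    have e2 := (mem_OO _).1 (a2 s)
    have e3 := (mem_OO _).1 (a3 s)
    have e4 := (mem_OO _).1 hu
    calc (Matrix.of (R2 s)) * (Matrix.of u) *
          (Matrix.of (R3 s)) * ((Matrix.transpose (Matrix.of (R3 s))) *
          ((Matrix.transpose (Matrix.of u)) *
          (Matrix.transpose (Matrix.of (R2 s)))))
        = (Matrix.of (R2 s)) * ((Matrix.of u) *
          ((Matrix.of (R3 s)) * (Matrix.transpose (Matrix.of (R3 s)))) *
          (Matrix.transpose (Matrix.of u))) *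
          (Matrix.transpose (Matrix.of (R2 s))) := by
          simp only [Matrix.mul_assoc]
      _ = 1 := by rw [e3, Matrix.mul_one, e4, Matrix.mul_one, e2]
  refine ⟨fun s => (⟨WithLp.toLp 2 (fun i => ∑ j, R1 s i j * x j), by
      rw [mem_sphere_zero_iff_norm]
      exact unit_norm (a1 s) hx1⟩, ⟨fun a b => ∑ c, ∑ d, R2 s a c * u c d * R3 s d b, hOO s⟩),
    ?_, fun s => ?_⟩
  · refine Prod.ext (Subtype.ext ?_) (Subtype.ext ?_)
    · ext i
      simp [b1]
    · funext a b
      simp [b2, b3]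
  · refine HasDerivAt.prodMk ?_ ?_
    · have h1 : HasDerivAt (fun r => (fun i => ∑ j, R1 r i j * x j : Ix n → ℝ))
          (fun i => ∑ j, η i j * ∑ k, R1 s j k * x k) s := by
        rw [hasDerivAt_pi]
        intro i
        have h2 : HasDerivAt (fun r => ∑ j, R1 r i j * x j)
            (∑ j, (∑ c, η i c * R1 s c j) * x j) s :=
          HasDerivAt.fun_sum fun j _ => (c1 s i j).mul_const (x j)
        have e : ∑ j, (∑ c, η i c * R1 s c j) * x j = ∑ j, η i j * ∑ k, R1 s j k * x k := by
          simp only [sum_mul, mul_sum]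
          rw [sum_comm]
          exact sum_congr rfl fun j _ => sum_congr rfl fun k _ => by ring
        rw [e] at h2
        exact h2
      exact ((PiLp.continuousLinearEquiv 2 ℝ (fun _ : Ix n => ℝ)).symm :
        (Ix n → ℝ) →L[ℝ] EE n).hasFDerivAt.comp_hasDerivAt s h1
    · rw [hasDerivAt_pi]
      intro a
      rw [hasDerivAt_pi]
      intro b
      have h2 : HasDerivAt (fun r => ∑ c, ∑ d, R2 r a c * u c d * R3 r d b)
          (∑ c, ∑ d, ((∑ k, ζ a k * R2 s k c) * u c d * R3 s d b +
            R2 s a c * u c d * ∑ k, R3 s d k * ξ k b)) s := by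
        refine HasDerivAt.fun_sum fun c _ => HasDerivAt.fun_sum fun d _ => ?_
        have h3 := ((c2 s a c).mul_const (u c d)).mul (c3 s d b)
        rw [d3] at h3
        exact h3
      have e : (∑ c, ∑ d, ((∑ k, ζ a k * R2 s k c) * u c d * R3 s d b +
            R2 s a c * u c d * ∑ k, R3 s d k * ξ k b)) =
          ∑ c, (ζ a c * (∑ c', ∑ d, R2 s c c' * u c' d * R3 s d b) +
            (∑ c', ∑ d, R2 s a c' * u c' d * R3 s d c) * ξ c b) := by
        simp only [sum_add_distrib, sum_mul, mul_sum]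
        congr 1
        · calc ∑ c, ∑ d, ∑ k, ζ a k * R2 s k c * u c d * R3 s d b
              = ∑ c, ∑ k, ∑ d, ζ a k * R2 s k c * u c d * R3 s d b :=
                sum_congr rfl fun c _ => sum_comm
            _ = ∑ k, ∑ c, ∑ d, ζ a k * R2 s k c * u c d * R3 s d b := sum_comm
            _ = _ := sum_congr rfl fun k _ => sum_congr rfl fun c _ =>
                sum_congr rfl fun d _ => by ring
        · calc ∑ c, ∑ d, ∑ k, R2 s a c * u c d * (R3 s d k * ξ k b)
              = ∑ c, ∑ k, ∑ d, R2 s a c * u c d * (R3 s d k * ξ k b) :=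
                sum_congr rfl fun c _ => sum_comm
            _ = ∑ k, ∑ c, ∑ d, R2 s a c * u c d * (R3 s d k * ξ k b) := sum_comm
            _ = _ := sum_congr rfl fun k _ => sum_congr rfl fun c _ =>
                sum_congr rfl fun d _ => by ring
      rw [e] at h2
      exact h2

end Pool.Agent.Helper47.RFn
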