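import Pool.Agent.Helper47.RFn.GoalsC

/-! # Packet RFn-NUK (MP_c98eff_gt): the radial vector is in the kernel of the curvature -/

namespace Pool.Agent.Helper47.RFn

open Finset

theorem goal_NUK (hFRA : Goal_FRA) : Goal_NUK := by
  intro n 𝒜 _ _ e n0 A θ h a b c
  obtain ⟨hcomm, -, -, -, -, -, -, hG, -, -⟩ := hFRA n 𝒜 e n0 A θ h
  obtain ⟨ν, hν⟩ : ∃ ν : Ix n → 𝒜, ν = FR.nf n0 A := ⟨_, rfl⟩
  obtain ⟨Γ, hΓ⟩ : ∃ Γ : Ix n → Ix n → Ix n → 𝒜, Γ = FR.Gam e n0 A θ := ⟨_, rfl⟩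
  obtain ⟨Cc, hC⟩ : ∃ Cc : Ix n → Ix n → Ix n → 𝒜, Cc = FR.C e n0 A θ := ⟨_, rfl⟩
  rw [← hC] at hcomm
  rw [← hν, ← hΓ] at hG
  have Fsum : ∀ (x : Ix n) (f : Ix n → 𝒜), FR.Fd e A x (∑ d, f d) = ∑ d, FR.Fd e A x (f d) := by
    intro x f
    unfold FR.Fd
    simp only [map_sum, mul_sum]
    exact sum_comm
  have Fmul : ∀ (x : Ix n) (f g : 𝒜), FR.Fd e A x (f * g) =
      FR.Fd e A x f * g + f * FR.Fd e A x g := by
    intro x f g
    unfold FR.Fd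
    rw [sum_mul, mul_sum, ← sum_add_distrib]
    refine sum_congr rfl fun i _ => ?_
    rw [Derivation.leibniz]
    simp only [smul_eq_mul]
    ring
  have h2 : ∀ x y : Ix n, FR.Fd e A x (FR.Fd e A y (ν c)) =
      ∑ d, FR.Fd e A x (Γ y c d) * ν d + ∑ d, (∑ f, Γ y c f * Γ x f d) * ν d := by
    intro x y
    rw [hG, Fsum]
    have e1 : ∀ d, FR.Fd e A x (Γ y c d * ν d) =
        FR.Fd e A x (Γ y c d) * ν d + ∑ f, Γ y c d * Γ x d f * ν f := by
      intro d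
      rw [Fmul, hG, mul_sum]
      congr 1
      exact sum_congr rfl fun f _ => by ring
    simp only [e1, sum_add_distrib]
    congr 1
    rw [sum_comm]
    refine sum_congr rfl fun d _ => ?_
    rw [sum_mul]
  have h3 : ∑ f, Cc a b f * FR.Fd e A f (ν c) = ∑ d, (∑ f, Cc a b f * Γ f c d) * ν d := by
    have e1 : ∀ f, Cc a b f * FR.Fd e A f (ν c) = ∑ d, Cc a b f * Γ f c d * ν d := by
      intro f
      rw [hG, mul_sum]
      exact sum_congr rfl fun d _ => by ring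
    simp only [e1]
    rw [sum_comm]
    refine sum_congr rfl fun d _ => ?_
    rw [sum_mul]
  have h4 := hcomm a b (ν c)
  rw [h2, h2, h3] at h4
  have h5 : ∑ d, FR.R e n0 A θ a b c d * ν d = -(∑ d, FR.Fd e A a (Γ b c d) * ν d
      + ∑ d, (∑ f, Γ b c f * Γ a f d) * ν d - (∑ d, FR.Fd e A b (Γ a c d) * ν d
      + ∑ d, (∑ f, Γ a c f * Γ b f d) * ν d) - ∑ d, (∑ f, Cc a b f * Γ f c d) * ν d) := by
    rw [← sum_add_distrib, ← sum_add_distrib, ← sum_sub_distrib, ← sum_sub_distrib,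
      ← sum_neg_distrib]
    refine sum_congr rfl fun d _ => ?_
    rw [FR.R, FR.K, ← hΓ, ← hC, sum_sub_distrib]
    ring
  rw [← hν, h5, h4]
  ring

end Pool.Agent.Helper47.RFn
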